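import Pool.Agent.Helper50.UK.Sd

set_option autoImplicit false

namespace Pool.Agent.Helper50.UK
variable {n : ℕ}
open Code

namespace Code

/-- the diagram given by a set `A` of free choices -/
def famD (S : Code n) (V B A : Finset (ZMod (2 * n))) (e : ZMod (2 * n) → ZMod (2 * n)) (τ : ZMod (2 * n) → ℕ)
    (w : Fin n) : Bool :=
  if S.pass.symm (w, true) ∈ V then decide (S.pass.symm (w, true) ∈ A)
  else if S.pass.symm (w, true) ∈ B then decide (e (S.pass.symm (w, true)) ∈ A)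
  else if S.pass.symm (w, false) ∈ B then !decide (e (S.pass.symm (w, false)) ∈ A)
  else decide (τ (S.pass.symm (w, false)) < τ (S.pass.symm (w, true)))

theorem passage_cases (S : Code n) (q : ZMod (2 * n)) :
    (q = S.pass.symm ((S.pass q).1, true) ∧ S.mate q = S.pass.symm ((S.pass q).1, false) ∧ (S.pass q).2 = true) ∨
      (q = S.pass.symm ((S.pass q).1, false) ∧ S.mate q = S.pass.symm ((S.pass q).1, true) ∧ (S.pass q).2 = false) := by
  cases hb : (S.pass q).2
  · right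
    refine ⟨?_, ?_, rfl⟩
    · rw [← hb]; simp
    · rw [mate, hb]; rfl
  · left
    refine ⟨?_, ?_, rfl⟩
    · rw [← hb]; simp
    · rw [mate, hb]; rfl

theorem isOver_famD_mem (S : Code n) {V B A : Finset (ZMod (2 * n))} {e : ZMod (2 * n) → ZMod (2 * n)}
    {τ : ZMod (2 * n) → ℕ} (hV : ∀ q, S.mate q ∈ V ↔ q ∈ V) (hV1 : ∀ q ∈ B, q ∉ V) (hμ : ∀ q ∈ B, S.mate q ∉ B)
    {q : ZMod (2 * n)} (hq : q ∈ B) : S.isOver (S.famD V B A e τ) q = decide (e q ∈ A) := by
  have h1 := hV1 q hq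
  have h2 := hμ q hq
  have h3 : S.mate q ∉ V := fun h => h1 ((hV q).1 h)
  rcases S.passage_cases q with ⟨e1, e2, e3⟩ | ⟨e1, e2, e3⟩
  · simp only [isOver, e3, famD]
    rw [← e1, if_neg h1, if_pos hq]
    simp
  · simp only [isOver, e3, famD]
    rw [← e1, ← e2, if_neg h3, if_neg h2, if_pos hq]
    simp

theorem isOver_famD_lt (S : Code n) {V B A : Finset (ZMod (2 * n))} {e : ZMod (2 * n) → ZMod (2 * n)}
    {τ : ZMod (2 * n) → ℕ} (hV : ∀ q, S.mate q ∈ V ↔ q ∈ V) {q : ZMod (2 * n)} (hqV : q ∉ V) (h1 : q ∉ B)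
    (h2 : S.mate q ∉ B) (hlt : τ (S.mate q) < τ q) : S.isOver (S.famD V B A e τ) q = true := by
  have h3 : S.mate q ∉ V := fun h => hqV ((hV q).1 h)
  rcases S.passage_cases q with ⟨e1, e2, e3⟩ | ⟨e1, e2, e3⟩
  · simp only [isOver, e3, famD]
    rw [← e1, ← e2, if_neg hqV, if_neg h1, if_neg h2]
    simpa using hlt
  · simp only [isOver, e3, famD]
    rw [← e1, ← e2, if_neg h3, if_neg h2, if_neg h1]
    simpa using hlt.le

theorem isOver_famD_V (S : Code n) {V B A : Finset (ZMod (2 * n))} {e : ZMod (2 * n) → ZMod (2 * n)}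
    {τ : ZMod (2 * n) → ℕ} {q : ZMod (2 * n)} (hq : q ∈ V) (hb : (S.pass q).2 = true) :
    S.famD V B A e τ (S.pass q).1 = decide (q ∈ A) := by
  rcases S.passage_cases q with ⟨e1, e2, e3⟩ | ⟨e1, e2, e3⟩
  · simp only [famD]
    rw [← e1, if_pos hq]
  · rw [hb] at e3
    cases e3

theorem card_half [NeZero n] (S : Code n) (V : Finset (ZMod (2 * n))) (hV : ∀ q, S.mate q ∈ V ↔ q ∈ V) :
    V.card = 2 * (V.filter fun q => (S.pass q).2 = true).card := by
  have h1 := Finset.card_filter_add_card_filter_not (s := V) (fun q => (S.pass q).2 = true)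
  have h2 : (V.filter fun q => ¬ (S.pass q).2 = true).card = (V.filter fun q => (S.pass q).2 = true).card := by
    apply Finset.card_nbij' S.mate S.mate
    · intro q hq
      simp only [Finset.coe_filter, Set.mem_ofPred_eq] at hq ⊢
      refine ⟨(hV q).2 hq.1, ?_⟩
      rw [S.pass_mate]
      simpa using hq.2
    · intro q hq
      simp only [Finset.coe_filter, Set.mem_ofPred_eq] at hq ⊢
      refine ⟨(hV q).2 hq.1, ?_⟩
      rw [S.pass_mate]
      simpa using hq.2
    · intro q _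
      exact S.mate_mate q
    · intro q _
      exact S.mate_mate q
  omega

end Code

/-- counting the diagrams of the family -/
theorem count_family [NeZero n] (S : Code n) (V Ex Ent : Finset (ZMod (2 * n)))
    (ent : ZMod (2 * n) → ZMod (2 * n)) (τ : ZMod (2 * n) → ℕ)
    (hV : ∀ q, S.mate q ∈ V ↔ q ∈ V) (hb : Set.BijOn ent Ex Ent) (hdis : Disjoint Ex Ent)
    (hV1 : ∀ q, q ∈ Ex ∨ q ∈ Ent → q ∉ V)
    (hμ : ∀ q, q ∈ Ex ∨ q ∈ Ent → ¬ (S.mate q ∈ Ex ∨ S.mate q ∈ Ent))
    (hPr : ∀ q, (q ∉ V ∧ τ q = τ (S.mate q)) ↔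
      ((q ∈ Ex ∨ q ∈ Ent) ∨ (S.mate q ∈ Ex ∨ S.mate q ∈ Ent)))
    (P₀ : (Fin n → Bool) → Prop)
    (h : ∀ D : Fin n → Bool, (∀ q, q ∉ V → τ (S.mate q) < τ q → S.isOver D q = true) →
      (∀ q, q ∈ Ex → S.isOver D q = S.isOver D (ent q)) → P₀ D) :
    ∃ E : ℕ, 4 * E = 2 * V.card + (Finset.univ.filter fun q => q ∉ V ∧ τ q = τ (S.mate q)).card ∧
      2 ^ E ≤ Nat.card {D : Fin n → Bool // P₀ D} := by
  classical
  set B : Finset (ZMod (2 * n)) := Ex ∪ Ent with hB
  have hBm : ∀ q, q ∈ B ↔ q ∈ Ex ∨ q ∈ Ent := fun q => Finset.mem_union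
  have hV1' : ∀ q ∈ B, q ∉ V := fun q hq => hV1 q ((hBm q).1 hq)
  have hμ' : ∀ q ∈ B, S.mate q ∉ B := fun q hq h => hμ q ((hBm q).1 hq) ((hBm _).1 h)
  set V' : Finset (ZMod (2 * n)) := V.filter fun q => (S.pass q).2 = true with hV'
  have hc : Ex.card = Ent.card := by
    apply Finset.card_nbij ent
    · exact fun q hq => hb.mapsTo hq
    · exact hb.injOn
    · exact hb.surjOn
  have hBc : B.card = 2 * Ent.card := by
    rw [hB, Finset.card_union_of_disjoint hdis, hc]
    ring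
  have hPc : (Finset.univ.filter fun q => q ∉ V ∧ τ q = τ (S.mate q)).card = 2 * B.card := by
    have h1 : (Finset.univ.filter fun q => q ∉ V ∧ τ q = τ (S.mate q)) = B ∪ B.image S.mate := by
      ext q
      rw [Finset.mem_filter, hPr, Finset.mem_union, Finset.mem_image]
      constructor
      · rintro ⟨-, h | h⟩
        · exact Or.inl ((hBm q).2 h)
        · exact Or.inr ⟨S.mate q, (hBm _).2 h, S.mate_mate q⟩
      · rintro (h | ⟨a, ha, rfl⟩)
        · exact ⟨Finset.mem_univ _, Or.inl ((hBm q).1 h)⟩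
        · refine ⟨Finset.mem_univ _, Or.inr ?_⟩
          rw [S.mate_mate]
          exact (hBm a).1 ha
    rw [h1, Finset.card_union_of_disjoint, Finset.card_image_of_injective _ (fun a b h => S.mate_inj h)]
    · ring
    · rw [Finset.disjoint_left]
      intro q hq hq'
      obtain ⟨a, ha, rfl⟩ := Finset.mem_image.1 hq'
      exact hμ' a ha hq
  have hVc : V.card = 2 * V'.card := S.card_half V hV
  set e : ZMod (2 * n) → ZMod (2 * n) := fun q => if q ∈ Ex then ent q else q with he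
  have heE : ∀ q ∈ Ent, e q = q := by
    intro q hq
    have : q ∉ Ex := fun h => Finset.disjoint_left.1 hdis h hq
    simp [he, this]
  have heX : ∀ q ∈ Ex, e q = ent q := by
    intro q hq
    simp [he, hq]
  have hP : ∀ A, P₀ (S.famD V B A e τ) := by
    intro A
    apply h
    · intro q hqV hlt
      have h1 : ¬ ((q ∈ Ex ∨ q ∈ Ent) ∨ (S.mate q ∈ Ex ∨ S.mate q ∈ Ent)) := fun h2 =>
        absurd ((hPr q).2 h2).2 (by omega)
      exact S.isOver_famD_lt hV hqV (fun h2 => h1 (Or.inl ((hBm q).1 h2))) (fun h2 => h1 (Or.inr ((hBm _).1 h2))) hlt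
    · intro q hq
      have h1 : ent q ∈ Ent := hb.mapsTo hq
      rw [S.isOver_famD_mem hV hV1' hμ' ((hBm q).2 (Or.inl hq)),
        S.isOver_famD_mem hV hV1' hμ' ((hBm _).2 (Or.inr h1)), heX q hq, heE _ h1]
  have hdR : Disjoint V' Ent := by
    rw [Finset.disjoint_left]
    intro q h1 h2
    exact hV1 q (Or.inr h2) (Finset.mem_filter.1 h1).1
  refine ⟨V'.card + Ent.card, ?_, ?_⟩
  · rw [hPc, hBc]
    omega
  · have h1 : 2 ^ (V'.card + Ent.card) = Nat.card {A // A ∈ (V' ∪ Ent).powerset} := by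
      rw [Nat.card_eq_fintype_card, Fintype.card_coe, Finset.card_powerset, Finset.card_union_of_disjoint hdR]
    rw [h1]
    refine Nat.card_le_card_of_injective (fun A => (⟨S.famD V B A.1 e τ, hP A.1⟩ : {D : Fin n → Bool // P₀ D})) ?_
    rintro ⟨A, hA⟩ ⟨A', hA'⟩ hAA
    have hD : S.famD V B A e τ = S.famD V B A' e τ := congrArg Subtype.val hAA
    rw [Finset.mem_powerset] at hA hA'
    have key : ∀ q ∈ V' ∪ Ent, (q ∈ A ↔ q ∈ A') := by
      intro q hq
      rcases Finset.mem_union.1 hq with hq | hq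
      · have h2 := Finset.mem_filter.1 hq
        have h3 := S.isOver_famD_V (B := B) (A := A) (e := e) (τ := τ) h2.1 h2.2
        have h4 := S.isOver_famD_V (B := B) (A := A') (e := e) (τ := τ) h2.1 h2.2
        rw [hD, h4] at h3
        exact (decide_eq_decide.1 h3).symm
      · have h3 := S.isOver_famD_mem (A := A) (e := e) (τ := τ) hV hV1' hμ' ((hBm q).2 (Or.inr hq))
        have h4 := S.isOver_famD_mem (A := A') (e := e) (τ := τ) hV hV1' hμ' ((hBm q).2 (Or.inr hq))
        rw [hD, h4, heE q hq] at h3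
        exact (decide_eq_decide.1 h3).symm
    apply Subtype.ext
    ext q
    constructor
    · intro h2
      exact (key q (hA h2)).1 h2
    · intro h2
      exact (key q (hA' h2)).2 h2

end Pool.Agent.Helper50.UK
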