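import Mathlib

/-!
Abstract form of the Jordan curve theorem for cell decompositions of the sphere: if the numbers of vertices, edges and
faces satisfy Euler's formula, every cycle modulo two is a boundary; a set of edges with no vertex of degree one
contains a cycle.
-/

namespace Pool.Agent.Helper10.UK

open Finset Module

variable {V E F : Type*} [Fintype V] [Fintype E] [Fintype F] [DecidableEq V]

/-- incidence matrix of edges and vertices modulo two -/
def inc (t h : E → V) : Matrix V E (ZMod 2) :=
  fun v e => (if t e = v then 1 else 0) + (if h e = v then 1 else 0)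

/-- difference of a function on the faces -/
def bd2 (l r : E → F) : (F → ZMod 2) →ₗ[ZMod 2] (E → ZMod 2) where
  toFun k e := k (l e) + k (r e)
  map_add' a b := by ext e; simp only [Pi.add_apply]; ring
  map_smul' c a := by ext e; simp only [Pi.smul_apply, smul_eq_mul, RingHom.id_apply]; ring

omit [Fintype V] [Fintype E] [Fintype F] [DecidableEq V] in
lemma finrank_ker_const {X Y : Type*} [Fintype X] [Fintype Y] [Nonempty X] (f : (X → ZMod 2) →ₗ[ZMod 2] (Y → ZMod 2))
    (h1 : f (fun _ => 1) = 0) (h2 : ∀ k, f k = 0 → ∃ c, k = fun _ => c) :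
    finrank (ZMod 2) (LinearMap.ker f) = 1 := by
  have : LinearMap.ker f = Submodule.span (ZMod 2) {(fun _ => 1 : X → ZMod 2)} := by
    ext k
    rw [LinearMap.mem_ker, Submodule.mem_span_singleton]
    constructor
    · intro hk
      obtain ⟨c, rfl⟩ := h2 k hk
      exact ⟨c, by ext; simp⟩
    · rintro ⟨c, rfl⟩
      rw [map_smul, h1, smul_zero]
  rw [this]
  apply finrank_span_singleton
  intro h
  obtain ⟨x⟩ := ‹Nonempty X›
  have := congrFun h x
  simp at this

lemma zmod2_add_self (a : ZMod 2) : a + a = 0 := by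
  have : (2 : ZMod 2) = 0 := rfl
  rw [← two_mul, this, zero_mul]

lemma zmod2_eq_of_add {a b : ZMod 2} (h : a + b = 0) : a = b := by
  have := zmod2_add_self b
  calc a = a + (b + b) := by rw [this, add_zero]
    _ = b := by rw [← add_assoc, h, zero_add]

omit [Fintype E] in
lemma inc_transpose (t h : E → V) (k : V → ZMod 2) (e : E) :
    ((inc t h).transpose.mulVecLin k) e = k (t e) + k (h e) := by
  simp only [Matrix.mulVecLin_apply, Matrix.mulVec, dotProduct, Matrix.transpose_apply, inc, add_mul, ite_mul, one_mul,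
    zero_mul, Finset.sum_add_distrib, Finset.sum_ite_eq, Finset.mem_univ, if_true]

/-- every cycle is a boundary -/
theorem exists_bd [Nonempty V] [Nonempty F] (t h : E → V) (l r : E → F)
    (A1 : ∀ k : F → ZMod 2, ∀ v, ∑ e, inc t h v e * (k (l e) + k (r e)) = 0)
    (A2 : ∀ k : F → ZMod 2, (∀ e, k (l e) = k (r e)) → ∀ a b, k a = k b)
    (A3 : ∀ k : V → ZMod 2, (∀ e, k (t e) = k (h e)) → ∀ a b, k a = k b)
    (A4 : Fintype.card V + Fintype.card F = Fintype.card E + 2)
    (z : E → ZMod 2) (hz : ∀ v, ∑ e, inc t h v e * z e = 0) :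
    ∃ k : F → ZMod 2, ∀ e, k (l e) + k (r e) = z e := by
  have hc2 : finrank (ZMod 2) (LinearMap.ker (bd2 l r)) = 1 := by
    apply finrank_ker_const
    · ext e; exact zmod2_add_self 1
    · intro k hk
      obtain ⟨a⟩ := ‹Nonempty F›
      refine ⟨k a, ?_⟩
      ext b
      exact A2 k (fun e => zmod2_eq_of_add (congrFun hk e)) b a
  have hc1 : finrank (ZMod 2) (LinearMap.ker (inc t h).transpose.mulVecLin) = 1 := by
    apply finrank_ker_const
    · ext e; rw [inc_transpose]; exact zmod2_add_self 1
    · intro k hk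
      obtain ⟨a⟩ := ‹Nonempty V›
      refine ⟨k a, ?_⟩
      ext b
      refine A3 k (fun e => zmod2_eq_of_add ?_) b a
      rw [← inc_transpose, hk]; rfl
  have r2 := LinearMap.finrank_range_add_finrank_ker (bd2 l r)
  have r1 := LinearMap.finrank_range_add_finrank_ker (inc t h).transpose.mulVecLin
  have r0 := LinearMap.finrank_range_add_finrank_ker (inc t h).mulVecLin
  have hr : finrank (ZMod 2) (LinearMap.range (inc t h).transpose.mulVecLin)
      = finrank (ZMod 2) (LinearMap.range (inc t h).mulVecLin) := (inc t h).rank_transpose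
  rw [Module.finrank_fintype_fun_eq_card] at r0 r1 r2
  have hle : LinearMap.range (bd2 l r) ≤ LinearMap.ker (inc t h).mulVecLin := by
    rintro _ ⟨k, rfl⟩
    rw [LinearMap.mem_ker]
    ext v
    exact A1 k v
  have heq : LinearMap.range (bd2 l r) = LinearMap.ker (inc t h).mulVecLin :=
    Submodule.eq_of_le_of_finrank_eq hle (by omega)
  have hzk : z ∈ LinearMap.ker (inc t h).mulVecLin := by
    rw [LinearMap.mem_ker]
    ext v
    exact hz v
  rw [← heq] at hzk
  obtain ⟨k, hk⟩ := hzk
  exact ⟨k, fun e => congrFun hk e⟩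

/-- a set of edges without vertex of degree one contains a cycle -/
theorem exists_cycle [DecidableEq E] (t h : E → V) (B : Finset E) (hB : B.Nonempty)
    (hdeg : ∀ v, (B.filter (fun e => t e = v)).card + (B.filter (fun e => h e = v)).card ≠ 1) :
    ∃ z : E → ZMod 2, z ≠ 0 ∧ (∀ e, z e ≠ 0 → e ∈ B) ∧ ∀ v, ∑ e, inc t h v e * z e = 0 := by
  classical
  set W : Finset V := B.image t ∪ B.image h with hW
  have ht : ∀ e ∈ B, t e ∈ W := fun e he => mem_union_left _ (mem_image_of_mem t he)
  have hh : ∀ e ∈ B, h e ∈ W := fun e he => mem_union_right _ (mem_image_of_mem h he)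
  have hsum : ∑ v ∈ W, ((B.filter (fun e => t e = v)).card + (B.filter (fun e => h e = v)).card) = 2 * B.card := by
    rw [Finset.sum_add_distrib, ← Finset.card_eq_sum_card_fiberwise (fun e he => ht e he),
      ← Finset.card_eq_sum_card_fiberwise (fun e he => hh e he)]
    ring
  have hge : ∀ v ∈ W, 2 ≤ (B.filter (fun e => t e = v)).card + (B.filter (fun e => h e = v)).card := by
    intro v hv
    have h1 := hdeg v
    have h2 : (B.filter (fun e => t e = v)).card + (B.filter (fun e => h e = v)).card ≠ 0 := by
      rw [hW, mem_union, mem_image, mem_image] at hv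
      rcases hv with ⟨e, he, rfl⟩ | ⟨e, he, rfl⟩
      · have : 0 < (B.filter (fun e' => t e' = t e)).card := card_pos.2 ⟨e, by simp [he]⟩
        omega
      · have : 0 < (B.filter (fun e' => h e' = h e)).card := card_pos.2 ⟨e, by simp [he]⟩
        omega
    omega
  have hWB : W.card ≤ B.card := by
    have := Finset.sum_le_sum hge
    rw [hsum, Finset.sum_const, smul_eq_mul] at this
    omega
  obtain ⟨e₀, he₀⟩ := hB
  -- the boundary map from edges of `B` to touched vertices
  let M : Matrix W B (ZMod 2) := fun w e => inc t h w e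
  have hcol : ∀ e : B, ∑ w : W, M w e = 0 := by
    intro e
    have h1 : ∑ w : W, M w e = ∑ v ∈ W, inc t h v e := by
      rw [← Finset.sum_coe_sort W (fun v => inc t h v e)]
    rw [h1]
    simp only [inc]
    rw [Finset.sum_add_distrib, Finset.sum_ite_eq, Finset.sum_ite_eq, if_pos (ht _ e.2), if_pos (hh _ e.2)]
    exact zmod2_add_self 1
  have hns : ¬ Function.Surjective M.mulVecLin := by
    intro hs
    obtain ⟨z, hz⟩ := hs (Pi.single ⟨t e₀, ht e₀ he₀⟩ 1)
    have h1 : ∑ w : W, (M.mulVecLin z) w = 0 := by
      simp only [Matrix.mulVecLin_apply, Matrix.mulVec, dotProduct]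
      rw [Finset.sum_comm]
      apply Finset.sum_eq_zero
      intro e _
      rw [← Finset.sum_mul, hcol, zero_mul]
    rw [hz, Finset.sum_pi_single'] at h1
    simp at h1
  have hni : ¬ Function.Injective M.mulVecLin := by
    intro hi
    have h1 := LinearMap.finrank_le_finrank_of_injective hi
    rw [Module.finrank_fintype_fun_eq_card, Module.finrank_fintype_fun_eq_card, Fintype.card_coe,
      Fintype.card_coe] at h1
    apply hns
    refine (LinearMap.injective_iff_surjective_of_finrank_eq_finrank ?_).1 hi
    rw [Module.finrank_fintype_fun_eq_card, Module.finrank_fintype_fun_eq_card, Fintype.card_coe,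
      Fintype.card_coe]
    omega
  rw [← LinearMap.ker_eq_bot] at hni
  obtain ⟨z, hz, hz0⟩ := (Submodule.ne_bot_iff _).1 hni
  refine ⟨fun e => if he : e ∈ B then z ⟨e, he⟩ else 0, ?_, ?_, ?_⟩
  · intro h0
    apply hz0
    ext ⟨e, he⟩
    have := congrFun h0 e
    simpa [he] using this
  · intro e he
    by_contra hn
    simp [hn] at he
  · intro v
    have h1 : ∑ e, inc t h v e * (if he : e ∈ B then z ⟨e, he⟩ else 0) = ∑ e : B, inc t h v e * z e := by
      rw [← Finset.sum_subset (Finset.subset_univ B) (fun e _ he => by simp [he]), ← Finset.sum_coe_sort B]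
      apply Finset.sum_congr rfl
      intro e _
      simp [e.2]
    rw [h1]
    by_cases hv : v ∈ W
    · have := congrFun (LinearMap.mem_ker.1 hz) ⟨v, hv⟩
      exact this
    · apply Finset.sum_eq_zero
      intro e _
      have h2 : t e ≠ v := fun h3 => hv (h3 ▸ ht _ e.2)
      have h4 : h e ≠ v := fun h3 => hv (h3 ▸ hh _ e.2)
      simp [inc, h2, h4]

end Pool.Agent.Helper10.UK
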