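import Pool.Agent.Helper10.UK.Euler
import Pool.Agent.Helper50.UK.Sd

set_option autoImplicit false

open Classical

namespace Pool.Agent.Helper50.UK

variable {n : ℕ}

namespace Code

theorem const_of_step [NeZero n] {A : Type*} (g : ZMod (2 * n) → A) (h : ∀ q, g (q + 1) = g q) (a b : ZMod (2 * n)) :
    g a = g b := by
  have h0 : ∀ m : ℕ, g (m : ZMod (2 * n)) = g 0 := by
    intro m
    induction m with
    | zero => simp
    | succ m ih => rw [Nat.cast_succ, h, ih]
  have h1 : ∀ a : ZMod (2 * n), g a = g 0 := by
    intro a
    rw [← ZMod.natCast_zmod_val a]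
    exact h0 _
  rw [h1 a, h1 b]

/-- the passages through a double point -/
theorem sum_at [NeZero n] (S : Code n) {A : Type*} [AddCommMonoid A] (g : ZMod (2 * n) → A) (v : Fin n) :
    ∑ e, (if (S.pass e).1 = v then g e else 0) = g (S.pass.symm (v, true)) + g (S.pass.symm (v, false)) := by
  rw [← Equiv.sum_comp S.pass.symm, Fintype.sum_prod_type]
  simp only [Equiv.apply_symm_apply, Fintype.sum_bool]
  rw [Finset.sum_add_distrib, Finset.sum_ite_eq', Finset.sum_ite_eq', if_pos (Finset.mem_univ _),
    if_pos (Finset.mem_univ _)]

theorem sum_at' [NeZero n] (S : Code n) {A : Type*} [AddCommMonoid A] (g : ZMod (2 * n) → A) (v : Fin n) :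
    ∑ e, (if (S.pass (e + 1)).1 = v then g e else 0)
      = g (S.pass.symm (v, true) - 1) + g (S.pass.symm (v, false) - 1) := by
  rw [← S.sum_at (fun q => g (q - 1)) v]
  have h := Equiv.sum_comp (Equiv.addRight (1 : ZMod (2 * n))) (fun q => if (S.pass q).1 = v then g (q - 1) else 0)
  simpa using h

theorem sum_inc [NeZero n] (S : Code n) (g : ZMod (2 * n) → ZMod 2) (v : Fin n) :
    ∑ e, Helper10.UK.inc (fun e => (S.pass e).1) (fun e => (S.pass (e + 1)).1) v e * g e
      = (g (S.pass.symm (v, true)) + g (S.pass.symm (v, false)))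
        + (g (S.pass.symm (v, true) - 1) + g (S.pass.symm (v, false) - 1)) := by
  rw [← S.sum_at, ← S.sum_at', ← Finset.sum_add_distrib]
  apply Finset.sum_congr rfl
  intro e _
  simp only [Helper10.UK.inc, add_mul, ite_mul, one_mul, zero_mul]

theorem mate_true (S : Code n) (v : Fin n) : S.mate (S.pass.symm (v, true)) = S.pass.symm (v, false) := by
  simp [mate]

theorem mate_false (S : Code n) (v : Fin n) : S.mate (S.pass.symm (v, false)) = S.pass.symm (v, true) := by
  simp [mate]

/-- every double point is `q, mate q` with `toLeft q`, up to symmetry -/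
theorem at_vertex (S : Code n) (P : ZMod (2 * n) → ZMod (2 * n) → Prop) (hs : ∀ a b, P a b → P b a)
    (h : ∀ q, S.toLeft q = true → P q (S.mate q)) (v : Fin n) :
    P (S.pass.symm (v, true)) (S.pass.symm (v, false)) := by
  cases hq : S.toLeft (S.pass.symm (v, true))
  · have hm : S.toLeft (S.pass.symm (v, false)) = true := by
      rw [← S.mate_true, S.toLeft_mate, hq]; rfl
    have := h _ hm
    rw [S.mate_false] at this
    exact hs _ _ this
  · have := h _ hq
    rwa [S.mate_true] at this

/-- the faces -/
abbrev Fc (S : Code n) : Type := Quot fun a b => b = S.faceStep a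

theorem face_of (S : Code n) {A : Type*} (k : S.Fc → A) : S.IsFace (fun a => k (Quot.mk _ a)) := by
  intro a
  exact congrArg k (Quot.sound (r := fun a b => b = S.faceStep a) rfl).symm

theorem face_zero (S : Code n) {f : ZMod (2 * n) × Bool → ZMod 2} (hf : S.IsFace f) (q : ZMod (2 * n))
    (hq : S.toLeft q = true) :
    ((f (q, true) + f (q, false)) + (f (S.mate q, true) + f (S.mate q, false)))
      + ((f (q - 1, true) + f (q - 1, false)) + (f (S.mate q - 1, true) + f (S.mate q - 1, false))) = 0 := by
  obtain ⟨h1, h2, h3, h4⟩ := IsFace.true_eq S hf hq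
  rw [h1, h2, h3, h4]
  generalize f (S.mate q, true) = a
  generalize f (S.mate q, false) = b
  generalize f (S.mate q - 1, true) = c
  generalize f (S.mate q - 1, false) = d
  revert a b c d
  decide

end Code

theorem Shadow.exists_bd [NeZero n] (S : Shadow n) (z : ZMod (2 * n) → ZMod 2)
    (hz : ∀ v, ∑ e, Helper10.UK.inc (fun e => (S.pass e).1) (fun e => (S.pass (e + 1)).1) v e * z e = 0) :
    ∃ k : S.toCode.Fc → ZMod 2, ∀ e, k (Quot.mk _ (e, true)) + k (Quot.mk _ (e, false)) = z e := by
  have : Finite S.toCode.Fc := Quot.finite _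
  have : Fintype S.toCode.Fc := Fintype.ofFinite _
  have : Nonempty S.toCode.Fc := ⟨Quot.mk _ (0, true)⟩
  have : Nonempty (Fin n) := ⟨⟨0, Nat.pos_of_ne_zero (NeZero.ne n)⟩⟩
  refine Helper10.UK.exists_bd (fun e => (S.pass e).1) (fun e => (S.pass (e + 1)).1)
    (fun e => (Quot.mk _ (e, true) : S.toCode.Fc)) (fun e => (Quot.mk _ (e, false) : S.toCode.Fc)) ?_ ?_ ?_ ?_ z hz
  · intro k v
    rw [S.toCode.sum_inc]
    refine S.toCode.at_vertex (fun a b => (((k (Quot.mk _ (a, true)) + k (Quot.mk _ (a, false)))
      + (k (Quot.mk _ (b, true)) + k (Quot.mk _ (b, false)))) + ((k (Quot.mk _ (a - 1, true)) + k (Quot.mk _ (a - 1, false)))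
      + (k (Quot.mk _ (b - 1, true)) + k (Quot.mk _ (b - 1, false))))) = 0) ?_ ?_ v
    · intro a b hab
      rw [← hab]
      ring
    · intro q hq
      exact S.toCode.face_zero (S.toCode.face_of k) q hq
  · intro k hk a b
    have hf := S.toCode.face_of k
    have hk' : ∀ e, k (Quot.mk _ (e, true)) = k (Quot.mk _ (e, false)) := hk
    have hstep : ∀ q : ZMod (2 * n), k (Quot.mk _ (q + 1, true)) = k (Quot.mk _ (q, true)) := by
      intro q
      cases hq : S.toLeft (q + 1)
      · obtain ⟨h1, h2, h3, h4⟩ := Code.IsFace.false_eq S.toCode hf hq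
        simp only [add_sub_cancel_right] at h3
        rw [← h1, ← h3, hk']
      · obtain ⟨h1, h2, h3, h4⟩ := Code.IsFace.true_eq S.toCode hf hq
        simp only [add_sub_cancel_right] at h1
        rw [h1, h2, hk']
    have hall : ∀ a b : ZMod (2 * n) × Bool, k (Quot.mk _ a) = k (Quot.mk _ b) := by
      have hT : ∀ a : ZMod (2 * n) × Bool, k (Quot.mk _ a) = k (Quot.mk _ (0, true)) := by
        rintro ⟨e, b⟩
        have h1 := Code.const_of_step (fun q => k (Quot.mk _ (q, true))) hstep e 0
        cases b
        · rw [← hk']; exact h1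
        · exact h1
      intro a b
      rw [hT a, hT b]
    induction a using Quot.ind
    induction b using Quot.ind
    exact hall _ _
  · intro k hk a b
    have h1 : ∀ q : ZMod (2 * n), k (S.pass (q + 1)).1 = k (S.pass q).1 := fun q => (hk q).symm
    have h2 := Code.const_of_step (fun q => k (S.pass q).1) h1 (S.pass.symm (a, true)) (S.pass.symm (b, true))
    simpa using h2
  · have h1 : Fintype.card S.toCode.Fc = n + 2 := by
      rw [← Nat.card_eq_fintype_card]
      exact S.planar
    rw [h1, Fintype.card_fin, ZMod.card]
    ring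

theorem Shadow.exists_side [NeZero n] (S : Shadow n) {C : Set (ZMod (2 * n))}
    (hC : S.toCode.Bal C) (a₀ : ZMod (2 * n) × Bool) (b₀ : Bool) :
    ∃ f, S.toCode.IsSide C f ∧ f a₀ = b₀ := by
  obtain ⟨k, hk⟩ := S.exists_bd (fun e => if e ∈ C then 1 else 0) (by
    intro v
    rw [S.toCode.sum_inc]
    refine S.toCode.at_vertex (fun a b => (((if a ∈ C then 1 else 0) + (if b ∈ C then 1 else 0))
      + ((if a - 1 ∈ C then 1 else 0) + (if b - 1 ∈ C then 1 else 0)) : ZMod 2) = 0) ?_ ?_ v
    · intro a b hab
      linear_combination hab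
    · intro q _
      have h := hC q
      by_cases h1 : q ∈ C <;> by_cases h2 : q - 1 ∈ C <;> by_cases h3 : S.mate q ∈ C <;>
        by_cases h4 : S.mate q - 1 ∈ C <;> simp [h1, h2, h3, h4] at h ⊢ <;> decide)
  refine ⟨fun a => xor b₀ (decide (k (Quot.mk _ a) ≠ k (Quot.mk _ a₀))), ⟨?_, ?_⟩, by simp⟩
  · intro a
    have := S.toCode.face_of k a
    simp only at this ⊢
    rw [this]
  · intro e
    have h := hk e
    revert h
    generalize k (Quot.mk _ (e, true)) = x
    generalize k (Quot.mk _ (e, false)) = y
    generalize k (Quot.mk _ a₀) = w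
    by_cases he : e ∈ C
    · simp only [he, if_true, iff_true]
      revert x y w b₀
      decide
    · simp only [he, if_false, iff_false]
      revert x y w b₀
      decide

namespace Code

/-- the edges with the wrong colour -/
noncomputable def bad [NeZero n] {G : Type} [Group G] (c : ZMod (2 * n) → G) (r : ZMod (2 * n) × Bool → G) :
    Finset (ZMod (2 * n)) :=
  Finset.univ.filter (fun e => col r e ≠ c e)

theorem mem_bad [NeZero n] {G : Type} [Group G] (c : ZMod (2 * n) → G) (r : ZMod (2 * n) × Bool → G)
    (e : ZMod (2 * n)) : e ∈ bad c r ↔ col r e ≠ c e := by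
  simp [bad]

theorem card_filter_at [NeZero n] (S : Code n) (B : Finset (ZMod (2 * n))) (v : Fin n) :
    (B.filter (fun e => (S.pass e).1 = v)).card
      = (if S.pass.symm (v, true) ∈ B then 1 else 0) + (if S.pass.symm (v, false) ∈ B then 1 else 0) := by
  rw [← S.sum_at (fun e => if e ∈ B then 1 else 0) v, Finset.card_filter, ← Finset.sum_filter_add_sum_filter_not
    Finset.univ (fun e => e ∈ B) (fun e => if (S.pass e).1 = v then (if e ∈ B then 1 else 0) else 0)]
  have h1 : Finset.univ.filter (fun e => e ∈ B) = B := by ext; simp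
  rw [h1, Finset.sum_eq_zero (s := Finset.univ.filter (fun e => e ∉ B)), add_zero]
  · apply Finset.sum_congr rfl
    intro e he
    simp [he]
  · intro e he
    simp at he
    simp [he]

theorem card_filter_at' [NeZero n] (S : Code n) (B : Finset (ZMod (2 * n))) (v : Fin n) :
    (B.filter (fun e => (S.pass (e + 1)).1 = v)).card
      = (if S.pass.symm (v, true) - 1 ∈ B then 1 else 0) + (if S.pass.symm (v, false) - 1 ∈ B then 1 else 0) := by
  rw [← S.sum_at' (fun e => if e ∈ B then 1 else 0) v, Finset.card_filter, ← Finset.sum_filter_add_sum_filter_not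
    Finset.univ (fun e => e ∈ B) (fun e => if (S.pass (e + 1)).1 = v then (if e ∈ B then 1 else 0) else 0)]
  have h1 : Finset.univ.filter (fun e => e ∈ B) = B := by ext; simp
  rw [h1, Finset.sum_eq_zero (s := Finset.univ.filter (fun e => e ∉ B)), add_zero]
  · apply Finset.sum_congr rfl
    intro e he
    simp [he]
  · intro e he
    simp at he
    simp [he]

theorem col_relation (S : Code n) {G : Type} [Group G] {r : ZMod (2 * n) × Bool → G} (hr : S.IsFace r)
    {q : ZMod (2 * n)} (hq : S.toLeft q = true) :
    col r (S.mate q - 1) * col r (q - 1) = col r q * col r (S.mate q) := by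
  obtain ⟨h1, h2, h3, h4⟩ := IsFace.true_eq S hr hq
  simp only [col]
  rw [h1, h2, h3, h4]
  group

end Code

theorem Shadow.exists_label [NeZero n] (S : Shadow n) {G : Type} [Group G]
    (c : ZMod (2 * n) → G)
    (hc : ∀ q, S.toLeft q = true →
      c (S.mate q - 1) * c (q - 1) = c q * c (S.mate q)) :
    ∃ r : ZMod (2 * n) × Bool → G, S.toCode.IsFace r ∧ ∀ e, Code.col r e = c e := by
  have key : ∀ N : ℕ, ∀ r : ZMod (2 * n) × Bool → G, S.toCode.IsFace r → (Code.bad c r).card = N →
      ∃ r : ZMod (2 * n) × Bool → G, S.toCode.IsFace r ∧ ∀ e, Code.col r e = c e := by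
    intro N
    induction N using Nat.strong_induction_on with
    | _ N ih =>
      intro r hr hN
      by_cases hB : (Code.bad c r).Nonempty
      swap
      · refine ⟨r, hr, fun e => ?_⟩
        by_contra h
        exact hB ⟨e, (Code.mem_bad c r e).2 h⟩
      -- degrees
      have hdeg : ∀ v, ((Code.bad c r).filter (fun e => (S.pass e).1 = v)).card
          + ((Code.bad c r).filter (fun e => (S.pass (e + 1)).1 = v)).card ≠ 1 := by
        intro v
        rw [S.toCode.card_filter_at, S.toCode.card_filter_at']
        refine S.toCode.at_vertex (fun a b => (((if a ∈ Code.bad c r then 1 else 0) + (if b ∈ Code.bad c r then 1 else 0))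
          + ((if a - 1 ∈ Code.bad c r then 1 else 0) + (if b - 1 ∈ Code.bad c r then 1 else 0))) ≠ 1) ?_ ?_ v
        · intro a b hab h
          refine hab (Eq.trans ?_ h)
          ac_rfl
        · intro q hq
          have e1 := hc q hq
          have e2 := S.toCode.col_relation hr hq
          simp only [Code.mem_bad]
          by_cases h1 : Code.col r q = c q <;> by_cases h2 : Code.col r (q - 1) = c (q - 1) <;>
            by_cases h3 : Code.col r (S.mate q) = c (S.mate q) <;>
            by_cases h4 : Code.col r (S.mate q - 1) = c (S.mate q - 1)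
          all_goals (first
            | (simp [h1, h2, h3, h4]; done)
            | (exfalso; apply h1; rw [h2, h3, h4, e1] at e2; exact (mul_right_cancel e2).symm)
            | (exfalso; apply h2; rw [h1, h3, h4, ← e1] at e2; exact (mul_left_cancel e2))
            | (exfalso; apply h3; rw [h1, h2, h4, e1] at e2; exact (mul_left_cancel e2).symm)
            | (exfalso; apply h4; rw [h1, h2, h3, ← e1] at e2; exact (mul_right_cancel e2)))
      obtain ⟨z, hz0, hzB, hz⟩ := Helper10.UK.exists_cycle (fun e => (S.pass e).1) (fun e => (S.pass (e + 1)).1)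
        (Code.bad c r) hB hdeg
      obtain ⟨e₀, he₀⟩ : ∃ e, z e ≠ 0 := by
        by_contra h
        push Not at h
        exact hz0 (funext h)
      have hCbal : S.toCode.Bal {e | z e ≠ 0} := by
        intro q
        have h1 := hz (S.pass q).1
        rw [S.toCode.sum_inc] at h1
        have h2 : ((z q + z (S.mate q)) + (z (q - 1) + z (S.mate q - 1))) = 0 := by
          cases hb : (S.pass q).2
          · have h3 : S.pass.symm ((S.pass q).1, false) = q := by
              rw [← hb]; simp
            have h4 : S.pass.symm ((S.pass q).1, true) = S.mate q := by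
              rw [Code.mate, hb]; rfl
            rw [h3, h4] at h1
            rw [← h1]
            ring
          · have h3 : S.pass.symm ((S.pass q).1, true) = q := by
              rw [← hb]; simp
            have h4 : S.pass.symm ((S.pass q).1, false) = S.mate q := by
              rw [Code.mate, hb]; rfl
            rw [h3, h4] at h1
            exact h1
        simp only [Set.mem_ofPred_eq]
        revert h2
        generalize z q = x1
        generalize z (S.mate q) = x2
        generalize z (q - 1) = x3
        generalize z (S.mate q - 1) = x4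
        revert x1 x2 x3 x4
        decide
      obtain ⟨f, hf, hf0⟩ := S.exists_side hCbal (e₀, true) true
      have hf1 : f (e₀, false) = false := by
        have := (hf.jump e₀).2 he₀
        rw [hf0] at this
        simpa using this
      set g : G := r (e₀, false) * c e₀ * (r (e₀, true))⁻¹ with hg
      set r' : ZMod (2 * n) × Bool → G := fun a => if f a then g * r a else r a with hr'
      have hface : S.toCode.IsFace r' := by
        intro a
        simp only [hr', hf.face a, hr a]
      have hcol : ∀ e, z e = 0 → Code.col r' e = Code.col r e := by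
        intro e he
        have h1 := hf.eq_of_notMem (e := e) (by simpa using he) true false
        simp only [Code.col, hr']
        rw [← h1]
        cases f (e, true)
        · simp
        · simp only [if_true]
          group
      have hgood : Code.col r' e₀ = c e₀ := by
        simp only [Code.col, hr', hf0, hf1, if_true, hg]
        simp only [Bool.false_eq_true, if_false]
        group
      have hlt : (Code.bad c r').card < N := by
        rw [← hN]
        apply Finset.card_lt_card
        rw [Finset.ssubset_iff_of_subset]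
        · exact ⟨e₀, hzB e₀ he₀, fun h => (Code.mem_bad c r' e₀).1 h hgood⟩
        · intro e he
          by_cases h : z e = 0
          · rw [Code.mem_bad] at he ⊢
            rw [← hcol e h]
            exact he
          · exact hzB e h
      exact ih _ hlt r' hface rfl
  exact key _ (fun _ => 1) (fun _ => rfl) rfl

end Pool.Agent.Helper50.UK
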